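import Pool.Agent.Helper74.Circ.BezA

/-!
Arithmetic circuits (straight-line programs) in which linear combinations are free: definitions and elementary
properties.
-/
namespace Circ
open MvPolynomial Finset

section Defs

variable {K : Type*} [Field K] {σ : Type*} [Fintype σ]

/-- `f` is a linear combination, with coefficients in `K`, of `1`, of the variables and of `y 0, …, y (k - 1)`. -/
def LinComb (y : ℕ → MvPolynomial σ K) (k : ℕ) (f : MvPolynomial σ K) : Prop :=
  ∃ (c : K) (α : σ → K) (β : ℕ → K), f = C c + ∑ v, C (α v) * X v + ∑ j ∈ range k, C (β j) * y j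

/-- `y 0, …, y (r - 1)` are the results of the successive multiplications of a straight-line program: each is the
product of two linear combinations of `1`, of the variables and of the preceding ones. -/
def IsProg (y : ℕ → MvPolynomial σ K) (r : ℕ) : Prop :=
  ∀ k < r, ∃ f g, LinComb y k f ∧ LinComb y k g ∧ y k = f * g

/-- `P` is computed by a straight-line program with `r` multiplications (linear combinations are free). -/
def MulRep (P : MvPolynomial σ K) (r : ℕ) : Prop :=
  ∃ y : ℕ → MvPolynomial σ K, IsProg y r ∧ LinComb y r P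

variable {y y' : ℕ → MvPolynomial σ K} {k k' r : ℕ} {f g : MvPolynomial σ K}

theorem LinComb.const (c : K) : LinComb y k (C c) :=
  ⟨c, 0, 0, by simp⟩

theorem LinComb.zero : LinComb y k 0 := by
  have := LinComb.const (y := y) (k := k) (0 : K)
  rwa [C_0] at this

theorem LinComb.var [DecidableEq σ] (v : σ) : LinComb y k (X v) := by
  refine ⟨0, Pi.single v 1, 0, ?_⟩
  rw [Finset.sum_eq_single v]
  · simp
  · intro b _ hb
    rw [Pi.single_eq_of_ne hb]
    simp
  · simp

theorem LinComb.gate {j : ℕ} (hj : j < k) : LinComb y k (y j) := by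
  refine ⟨0, 0, Pi.single j 1, ?_⟩
  rw [Finset.sum_eq_single (s := range k) j]
  · simp
  · intro b _ hb
    rw [Pi.single_eq_of_ne hb]
    simp
  · intro h
    exact absurd (mem_range.2 hj) h

theorem LinComb.add (hf : LinComb y k f) (hg : LinComb y k g) : LinComb y k (f + g) := by
  obtain ⟨c, α, β, rfl⟩ := hf
  obtain ⟨c', α', β', rfl⟩ := hg
  refine ⟨c + c', α + α', β + β', ?_⟩
  simp only [C_add, Pi.add_apply, add_mul, Finset.sum_add_distrib]
  ring

theorem LinComb.smul (a : K) (hf : LinComb y k f) : LinComb y k (C a * f) := by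
  obtain ⟨c, α, β, rfl⟩ := hf
  refine ⟨a * c, a • α, a • β, ?_⟩
  simp only [C_mul, Pi.smul_apply, smul_eq_mul, mul_add, Finset.mul_sum, mul_assoc]

theorem LinComb.sum {κ : Type*} (s : Finset κ) (F : κ → MvPolynomial σ K) (h : ∀ i ∈ s, LinComb y k (F i)) :
    LinComb y k (∑ i ∈ s, F i) := by
  classical
  induction s using Finset.induction_on with
  | empty => simpa using LinComb.zero
  | insert a s ha ih =>
    rw [Finset.sum_insert ha]
    exact (h a (Finset.mem_insert_self a s)).add (ih fun i hi => h i (Finset.mem_insert_of_mem hi))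

/-- more multiplications, and only the first `k` count -/
theorem LinComb.mono (h : LinComb y k f) (hk : k ≤ k') (hy : ∀ j < k, y' j = y j) : LinComb y' k' f := by
  obtain ⟨c, α, β, rfl⟩ := h
  refine ⟨c, α, fun j => if j < k then β j else 0, ?_⟩
  congr 1
  rw [← Finset.sum_subset (Finset.range_mono hk)]
  · refine Finset.sum_congr rfl fun j hj => ?_
    dsimp only
    rw [if_pos (mem_range.1 hj), hy j (mem_range.1 hj)]
  · intro j _ hj
    dsimp only
    rw [if_neg fun h => hj (mem_range.2 h), C_0, zero_mul]

theorem IsProg.congr (h : IsProg y r) (hy : ∀ j < r, y' j = y j) : IsProg y' r := by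
  intro k hk
  obtain ⟨f, g, hf, hg, e⟩ := h k hk
  exact ⟨f, g, hf.mono le_rfl fun j hj => hy j (hj.trans hk), hg.mono le_rfl fun j hj => hy j (hj.trans hk),
    (hy k hk).trans e⟩

theorem IsProg.mono (h : IsProg y r) (hk : k ≤ r) : IsProg y k := fun j hj => h j (hj.trans_le hk)

/-- one more multiplication -/
theorem IsProg.extend (h : IsProg y r) (hf : LinComb y r f) (hg : LinComb y r g) :
    ∃ y' : ℕ → MvPolynomial σ K, IsProg y' (r + 1) ∧ (∀ j < r, y' j = y j) ∧ y' r = f * g := by
  refine ⟨Function.update y r (f * g), ?_, ?_, ?_⟩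
  · have h0 : ∀ j < r, Function.update y r (f * g) j = y j := fun j hj =>
      Function.update_of_ne (ne_of_lt hj) _ _
    intro k hk
    rcases Nat.lt_succ_iff_lt_or_eq.1 hk with hk' | rfl
    · exact h.congr h0 k hk'
    · exact ⟨f, g, hf.mono le_rfl h0, hg.mono le_rfl h0, Function.update_self _ _ _⟩
  · exact fun j hj => Function.update_of_ne (ne_of_lt hj) _ _
  · exact Function.update_self _ _ _

/-- degrees -/
theorem IsProg.totalDegree_le (h : IsProg y r) : ∀ k < r, (y k).totalDegree ≤ 2 ^ (k + 1) := by
  intro k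
  induction k using Nat.strong_induction_on with
  | _ k ih =>
    intro hk
    obtain ⟨f, g, hf, hg, e⟩ := h k hk
    have key : ∀ u : MvPolynomial σ K, LinComb y k u → u.totalDegree ≤ 2 ^ k := by
      rintro u ⟨c, α, β, rfl⟩
      refine (totalDegree_add _ _).trans (max_le ((totalDegree_add _ _).trans (max_le ?_ ?_)) ?_)
      · rw [totalDegree_C]
        exact Nat.zero_le _
      · refine totalDegree_finsetSum_le fun v _ => (totalDegree_mul _ _).trans ?_
        rw [totalDegree_C, totalDegree_X, zero_add]
        exact Nat.one_le_two_pow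
      · refine totalDegree_finsetSum_le fun j hj => (totalDegree_mul _ _).trans ?_
        rw [totalDegree_C, zero_add]
        have hj' := mem_range.1 hj
        exact (ih j hj' (hj'.trans hk)).trans (Nat.pow_le_pow_right (by norm_num) hj')
    rw [e, pow_succ, mul_two]
    exact (totalDegree_mul _ _).trans (add_le_add (key f hf) (key g hg))

theorem MulRep.totalDegree_le {P : MvPolynomial σ K} (h : MulRep P r) : P.totalDegree ≤ 2 ^ r := by
  obtain ⟨y, hy, c, α, β, rfl⟩ := h
  refine (totalDegree_add _ _).trans (max_le ((totalDegree_add _ _).trans (max_le ?_ ?_)) ?_)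
  · rw [totalDegree_C]
    exact Nat.zero_le _
  · refine totalDegree_finsetSum_le fun v _ => (totalDegree_mul _ _).trans ?_
    rw [totalDegree_C, totalDegree_X, zero_add]
    exact Nat.one_le_two_pow
  · refine totalDegree_finsetSum_le fun j hj => (totalDegree_mul _ _).trans ?_
    rw [totalDegree_C, zero_add]
    have hj' := mem_range.1 hj
    exact (hy.totalDegree_le j hj').trans (Nat.pow_le_pow_right (by norm_num) hj')

end Defs

section Subst

variable {K : Type*} [Field K] {σ τ : Type*} [Fintype σ] [Fintype τ] [DecidableEq τ]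

/-- a polynomial of degree at most one -/
theorem eq_of_totalDegree_le_one (f : MvPolynomial τ K) (hf : f.totalDegree ≤ 1) :
    f = C (f.coeff 0) + ∑ t, C (f.coeff (Finsupp.single t 1)) * X t := by
  ext s
  rw [coeff_add, coeff_sum, coeff_C]
  simp only [coeff_C_mul, coeff_X, mul_ite, mul_one, mul_zero]
  by_cases h0 : s = 0
  · subst h0
    rw [if_pos rfl, Finset.sum_eq_zero, add_zero]
    intro t _
    rw [if_neg]
    intro h
    have := DFunLike.congr_fun h t
    simp at this
  · rw [if_neg (Ne.symm h0), zero_add]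
    by_cases h1 : ∃ t, Finsupp.single t 1 = s
    · obtain ⟨t, rfl⟩ := h1
      rw [Finset.sum_eq_single t]
      · rw [if_pos rfl]
      · intro b _ hb
        rw [if_neg]
        intro h
        exact hb (Finsupp.single_left_injective one_ne_zero h)
      · simp
    · rw [Finset.sum_eq_zero]
      · by_contra hne
        have hs : s ∈ f.support := mem_support_iff.2 hne
        have h2 := (le_totalDegree hs).trans hf
        obtain ⟨t, ht⟩ : ∃ t, s t ≠ 0 := by
          by_contra h
          push Not at h
          exact h0 (Finsupp.ext h)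
        apply h1
        refine ⟨t, ?_⟩
        rw [Finsupp.sum_fintype _ _ (fun _ => rfl), ← Finset.add_sum_erase univ _ (mem_univ t)] at h2
        have h3 : ∑ u ∈ univ.erase t, s u = 0 := by omega
        rw [Finset.sum_eq_zero_iff] at h3
        ext u
        rw [Finsupp.single_apply]
        split_ifs with htu
        · subst htu
          omega
        · exact (h3 u (mem_erase.2 ⟨fun h => htu h.symm, mem_univ _⟩)).symm
      · intro t _
        rw [if_neg fun h => h1 ⟨t, h⟩]

theorem LinComb.of_totalDegree_le_one {y : ℕ → MvPolynomial τ K} {k : ℕ} (f : MvPolynomial τ K)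
    (hf : f.totalDegree ≤ 1) : LinComb y k f := by
  rw [eq_of_totalDegree_le_one f hf]
  exact (LinComb.const _).add (LinComb.sum _ _ fun t _ => (LinComb.var t).smul _)

/-- affine substitution -/
theorem LinComb.aeval {y : ℕ → MvPolynomial σ K} {k : ℕ} {f : MvPolynomial σ K} (h : LinComb y k f)
    (φ : σ → MvPolynomial τ K) (hφ : ∀ s, (φ s).totalDegree ≤ 1) :
    LinComb (fun j => aeval φ (y j)) k (aeval φ f) := by
  obtain ⟨c, α, β, rfl⟩ := h
  simp only [map_add, map_sum, map_mul, MvPolynomial.algHom_C, MvPolynomial.aeval_X, algebraMap_eq]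
  refine ((LinComb.const c).add (LinComb.sum _ _ fun v _ => ?_)).add (LinComb.sum _ _ fun j hj => ?_)
  · exact (LinComb.of_totalDegree_le_one _ (hφ v)).smul _
  · exact (LinComb.gate (y := fun j => MvPolynomial.aeval φ (y j)) (mem_range.1 hj)).smul _

theorem MulRep.aeval {P : MvPolynomial σ K} {r : ℕ} (h : MulRep P r) (φ : σ → MvPolynomial τ K)
    (hφ : ∀ s, (φ s).totalDegree ≤ 1) : MulRep (MvPolynomial.aeval φ P) r := by
  obtain ⟨y, hy, hP⟩ := h
  refine ⟨fun j => MvPolynomial.aeval φ (y j), fun k hk => ?_, hP.aeval φ hφ⟩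
  obtain ⟨f, g, hf, hg, e⟩ := hy k hk
  exact ⟨_, _, hf.aeval φ hφ, hg.aeval φ hφ, by simp only [e, map_mul]⟩

end Subst

end Circ
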