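import Pool.Agent.Helper74.Circ.Strassen

/-!
The theorem of Baur and Strassen: if `P` is computed with `r` multiplications then `P` and all its first partial
derivatives are computed by one program with `3 r` multiplications. Hence `P` has at most `8 ^ r` nondegenerate critical
points.
-/
namespace Circ
open MvPolynomial Finset

variable {K : Type*} [Field K] {σ : Type*} [Fintype σ] [DecidableEq σ]

theorem pderiv_comb (v : σ) (k : ℕ) (y : ℕ → MvPolynomial σ K) (c : K) (α : σ → K) (β : ℕ → K) :
    pderiv v (C c + ∑ v, C (α v) * X v + ∑ j ∈ range k, C (β j) * y j) =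
      C (α v) + ∑ j ∈ range k, C (β j) * pderiv v (y j) := by
  rw [map_add, map_add, map_sum, map_sum, pderiv_C, zero_add]
  congr 1
  · rw [Finset.sum_eq_single v]
    · rw [Derivation.leibniz, pderiv_C, smul_zero, add_zero, pderiv_X_self, smul_eq_mul, mul_one]
    · intro b _ hb
      rw [Derivation.leibniz, pderiv_C, smul_zero, add_zero, pderiv_X_of_ne hb, smul_zero]
    · simp
  · refine Finset.sum_congr rfl fun j _ => ?_
    rw [Derivation.leibniz, pderiv_C, smul_zero, add_zero, smul_eq_mul]

theorem backward (P : MvPolynomial σ K) (r : ℕ) (y : ℕ → MvPolynomial σ K) (hy : IsProg y r) (hP : LinComb y r P) :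
    ∀ i ≤ r, ∃ y' : ℕ → MvPolynomial σ K, IsProg y' (r + 2 * i) ∧ (∀ j < r, y' j = y j) ∧
      ∃ (Γ : σ → MvPolynomial σ K) (Λ : ℕ → MvPolynomial σ K), (∀ v, LinComb y' (r + 2 * i) (Γ v)) ∧
        (∀ k < r - i, LinComb y' (r + 2 * i) (Λ k)) ∧
        ∀ v, pderiv v P = Γ v + ∑ k ∈ range (r - i), Λ k * pderiv v (y k) := by
  intro i
  induction i with
  | zero =>
    intro _
    obtain ⟨c, α, β, e⟩ := hP
    refine ⟨y, hy, fun _ _ => rfl, fun v => C (α v), fun k => C (β k), fun v => LinComb.const _,
      fun k _ => LinComb.const _, fun v => ?_⟩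
    rw [e, pderiv_comb]
    rfl
  | succ i ih =>
    intro hi
    obtain ⟨y₁, hy₁, hyy, Γ, Λ, hΓ, hΛ, hd⟩ := ih (Nat.le_of_succ_le hi)
    obtain ⟨m, hm⟩ : ∃ m, r - i = m + 1 := ⟨r - (i + 1), by omega⟩
    have hm' : r - (i + 1) = m := by omega
    have hmr : m < r := by omega
    obtain ⟨U, V, ⟨cu, u, u', hU⟩, ⟨cv, w, w', hV⟩, hyUV⟩ := hy m hmr
    have hU1 : LinComb y₁ (r + 2 * i) U := by
      have h1 : LinComb y m U := ⟨cu, u, u', hU⟩
      exact h1.mono (by omega) fun j hj => hyy j (hj.trans hmr)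
    have hV1 : LinComb y₁ (r + 2 * i) V := by
      have h1 : LinComb y m V := ⟨cv, w, w', hV⟩
      exact h1.mono (by omega) fun j hj => hyy j (hj.trans hmr)
    have hΛm : LinComb y₁ (r + 2 * i) (Λ m) := hΛ m (by omega)
    obtain ⟨y₂, hy₂, h12, ha⟩ := hy₁.extend hΛm hV1
    have up : ∀ {f : MvPolynomial σ K}, LinComb y₁ (r + 2 * i) f → LinComb y₂ (r + 2 * i + 1) f :=
      fun h => h.mono (Nat.le_succ _) h12
    obtain ⟨y₃, hy₃, h23, hb⟩ := hy₂.extend (up hΛm) (up hU1)
    have up' : ∀ {f : MvPolynomial σ K}, LinComb y₁ (r + 2 * i) f → LinComb y₃ (r + 2 * (i + 1)) f :=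
      fun h => (up h).mono (by omega) h23
    have hA : LinComb y₃ (r + 2 * (i + 1)) (Λ m * V) := by
      rw [← ha, ← h23 _ (Nat.lt_succ_self _)]
      exact LinComb.gate (by omega)
    have hB : LinComb y₃ (r + 2 * (i + 1)) (Λ m * U) := by
      rw [← hb]
      exact LinComb.gate (by omega)
    refine ⟨y₃, hy₃, fun j hj => ?_, fun v => Γ v + (C (u v) * (Λ m * V) + C (w v) * (Λ m * U)),
      fun k => Λ k + (C (u' k) * (Λ m * V) + C (w' k) * (Λ m * U)), fun v => ?_, fun k hk => ?_, fun v => ?_⟩
    · rw [h23 j (by omega), h12 j (by omega), hyy j hj]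
    · exact (up' (hΓ v)).add ((hA.smul _).add (hB.smul _))
    · exact (up' (hΛ k (by omega))).add ((hA.smul _).add (hB.smul _))
    · rw [hd v, hm, Finset.sum_range_succ, hm', hyUV, Derivation.leibniz, smul_eq_mul, smul_eq_mul]
      have eU : pderiv v U = C (u v) + ∑ j ∈ range m, C (u' j) * pderiv v (y j) := by
        rw [hU, pderiv_comb]
      have eV : pderiv v V = C (w v) + ∑ j ∈ range m, C (w' j) * pderiv v (y j) := by
        rw [hV, pderiv_comb]
      rw [eU, eV]
      simp only [add_mul, Finset.sum_add_distrib, mul_add, Finset.mul_sum]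
      have e1 : ∑ x ∈ range m, Λ m * (U * (C (w' x) * pderiv v (y x))) =
          ∑ x ∈ range m, C (w' x) * (Λ m * U) * pderiv v (y x) :=
        Finset.sum_congr rfl fun x _ => by ring
      have e2 : ∑ x ∈ range m, Λ m * (V * (C (u' x) * pderiv v (y x))) =
          ∑ x ∈ range m, C (u' x) * (Λ m * V) * pderiv v (y x) :=
        Finset.sum_congr rfl fun x _ => by ring
      rw [e1, e2]
      ring

/-- Baur-Strassen -/
theorem baur_strassen (P : MvPolynomial σ K) (r : ℕ) (h : MulRep P r) :
    ∃ y : ℕ → MvPolynomial σ K, IsProg y (3 * r) ∧ LinComb y (3 * r) P ∧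
      ∀ v, LinComb y (3 * r) (pderiv v P) := by
  obtain ⟨y, hy, hP⟩ := h
  obtain ⟨y', hy', hyy, Γ, Λ, hΓ, _, hd⟩ := backward P r y hy hP r le_rfl
  have e : r + 2 * r = 3 * r := by ring
  rw [e] at hy' hΓ
  refine ⟨y', hy', hP.mono (by omega) hyy, fun v => ?_⟩
  rw [hd v, Nat.sub_self, Finset.range_zero, Finset.sum_empty, add_zero]
  exact hΓ v

/-- Nondegenerate critical points of the coordinate `x none` on the hypersurface `F = 0`: at most `8 ^ r`. -/
theorem crit_card {ι : Type*} [Fintype ι] [DecidableEq ι] [Infinite K] (F : MvPolynomial (Option ι) K) (r : ℕ)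
    (h : MulRep F r) (Z : Finset (Option ι → K))
    (hZ : ∀ z ∈ Z, eval z F = 0 ∧ (∀ v : ι, eval z (pderiv (some v) F) = 0) ∧ eval z (pderiv none F) ≠ 0 ∧
      ∀ w : ι → K, (∀ v, ∑ v', eval z (pderiv (some v') (pderiv (some v) F)) * w v' = 0) → w = 0) :
    Z.card ≤ 8 ^ r := by
  classical
  obtain ⟨y, hy, hF, hd⟩ := baur_strassen F r h
  have hb := strassen y (3 * r) hy (fun o : Option ι => o.elim F fun v => pderiv (some v) F)
    (by
      rintro (_ | v)
      · exact hF
      · exact hd (some v)) rfl (fun z : Z => (z : Option ι → K)) Subtype.val_injective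
    (by
      rintro z (_ | v)
      · exact (hZ z z.2).1
      · exact (hZ z z.2).2.1 v)
    (by
      intro z u hu
      obtain ⟨_, h2, h3, h4⟩ := hZ z z.2
      have e0 := hu none
      simp only [Option.elim_none] at e0
      rw [Fintype.sum_option, Finset.sum_eq_zero (s := Finset.univ) (f := fun i =>
        eval (z : Option ι → K) (pderiv (some i) F) * u (some i)) (fun v _ => by rw [h2 v, zero_mul]),
        add_zero] at e0
      have hn : u none = 0 := (mul_eq_zero.1 e0).resolve_left h3
      have hs : (fun v => u (some v)) = 0 := by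
        apply h4
        intro v
        have ev := hu (some v)
        simp only [Option.elim_some] at ev
        rw [Fintype.sum_option, hn, mul_zero, zero_add] at ev
        exact ev
      funext o
      rcases o with _ | v
      · exact hn
      · exact congrFun hs v)
  rw [Fintype.card_coe] at hb
  refine hb.trans (le_of_eq ?_)
  rw [pow_mul]
  norm_num

end Circ
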