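import Pool.Agent.Helper24.SQ.Crit
import Pool.Agent.Helper74.Circ.BS

/-!
Limits of polynomials of a given class: the critical points persist.
-/
namespace Circ
open MvPolynomial Finset Pool.Agent.Helper24.SQ

/-- If `p` is a coefficientwise limit of polynomials with the property `Q`, of bounded degree, then nondegenerate critical
points of a substitution of `p` are also found for a substitution of a polynomial with the property `Q`. -/
theorem exists_near {σ ι : Type} [Fintype σ] [Fintype ι] (p : MvPolynomial σ ℂ) (Q : MvPolynomial σ ℂ → Prop)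
    (D₀ : ℕ) (hQ : ∀ P, Q P → P.totalDegree ≤ D₀)
    (h : ∀ ε : ℝ, 0 < ε → ∃ P, Q P ∧ ∀ s, ‖P.coeff s - p.coeff s‖ < ε)
    (f : σ → MvPolynomial (Option ι) ℂ) (Z : Finset (Option ι → ℂ)) (hZ : ∀ z ∈ Z, CritPt (aeval f p) z) :
    ∃ (P : MvPolynomial σ ℂ) (Z' : Finset (Option ι → ℂ)), Q P ∧ Z'.card = Z.card ∧
      ∀ z ∈ Z', CritPt (aeval f P) z := by
  classical
  set D := max D₀ p.totalDegree with hD
  -- the monomials of degree at most `D`
  have hfin : {s : σ →₀ ℕ | (s.sum fun _ e => e) ≤ D}.Finite := by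
    have : {s : σ →₀ ℕ | (s.sum fun _ e => e) ≤ D} ⊆
        ↑(Finset.Iic (Finsupp.equivFunOnFinite.symm fun _ : σ => D)) := by
      intro s hs
      rw [Finset.mem_coe, Finset.mem_Iic]
      intro q
      show s q ≤ D
      refine le_trans ?_ hs
      by_cases hq : q ∈ s.support
      · exact Finset.single_le_sum (f := fun q => s q) (fun _ _ => Nat.zero_le _) hq
      · rw [Finsupp.notMem_support_iff.1 hq]; exact Nat.zero_le _
    exact Set.Finite.subset (Finset.finite_toSet _) this
  set κ : Finset (σ →₀ ℕ) := hfin.toFinset with hκ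
  obtain ⟨ε, hε, hpers⟩ := crit_persist (aeval f p)
    (fun k : κ => aeval f (monomial (k : σ →₀ ℕ) (1 : ℂ))) Z hZ
  obtain ⟨P, hP, hPc⟩ := h ε hε
  obtain ⟨Z', hZ', hcrit⟩ := hpers (fun k => P.coeff k - p.coeff k) fun k => hPc _
  refine ⟨P, Z', hP, hZ', fun z hz => ?_⟩
  have hexp : ∀ Q : MvPolynomial σ ℂ, Q.totalDegree ≤ D →
      Q = ∑ k : κ, Q.coeff k • monomial (k : σ →₀ ℕ) (1 : ℂ) := by
    intro Q hQ
    rw [Finset.sum_coe_sort κ (fun k => Q.coeff k • monomial k (1 : ℂ))]
    conv_lhs => rw [Q.as_sum]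
    rw [Finset.sum_subset (s₂ := κ)]
    · refine Finset.sum_congr rfl fun k _ => ?_
      rw [smul_monomial, smul_eq_mul, mul_one]
    · intro k hk
      rw [hκ, Set.Finite.mem_toFinset]
      exact (le_totalDegree hk).trans hQ
    · intro k _ hk
      rw [notMem_support_iff.1 hk, monomial_zero]
  have h1 : aeval f P = aeval f p + ∑ k : κ, (P.coeff k - p.coeff k) •
      aeval f (monomial (k : σ →₀ ℕ) (1 : ℂ)) := by
    have hPd := hexp P ((hQ P hP).trans (le_max_left _ _))
    have hpd := hexp p (le_max_right _ _)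
    have e : P = p + ∑ k : κ, (P.coeff k - p.coeff k) • monomial (k : σ →₀ ℕ) (1 : ℂ) := by
      simp only [sub_smul]
      rw [Finset.sum_sub_distrib, ← hPd, ← hpd]
      ring
    conv_lhs => rw [e]
    rw [map_add, map_sum]
    simp only [map_smul]
  rw [h1]
  exact hcrit z hz

/-- The permanent of the generic `n × n` matrix is a coefficientwise limit of polynomials computed with `r`
multiplications. -/
def BorderMul (n r : ℕ) : Prop :=
  ∀ ε : ℝ, 0 < ε → ∃ P : MvPolynomial (Fin n × Fin n) ℂ, MulRep P r ∧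
    ∀ s, ‖P.coeff s - (permPoly n).coeff s‖ < ε

/-- Nondegenerate critical points of a projection of the permanent. -/
theorem border_crit {n r : ℕ} {ι : Type} [Fintype ι] (h : BorderMul n r)
    (f : Fin n × Fin n → MvPolynomial (Option ι) ℂ) (hf : ∀ q, (f q).totalDegree ≤ 1)
    (Z : Finset (Option ι → ℂ)) (hZ : ∀ z ∈ Z, CritPt (aeval f (permPoly n)) z) :
    Z.card ≤ 8 ^ r := by
  classical
  obtain ⟨P, Z', hP, hZ', hc⟩ := exists_near (permPoly n) (fun P => MulRep P r) (2 ^ r)
    (fun P hP => hP.totalDegree_le) h f Z hZ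
  rw [← hZ']
  exact crit_card (aeval f P) r (hP.aeval f hf) Z' hc

end Circ
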