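import Pool.Agent.Helper74.Bez.Final

/-!
Elementary affine Bezout inequality: `n` polynomials of degrees `≤ d_i` in `n` variables over an infinite field have at
most `∏ d_i` nondegenerate common zeros.
-/
namespace Circ
open MvPolynomial Finset Bez

variable {K : Type*} [Field K] {σ τ ι : Type*} [Fintype σ] [DecidableEq σ] [Fintype τ] [DecidableEq τ]
  [Fintype ι] [DecidableEq ι]

/-- polynomials of degree `≤ d` -/
noncomputable def Wt (K σ : Type*) [Field K] [Fintype σ] (d : ℕ) : Submodule K (MvPolynomial σ K) :=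
  restrictSupport K {a | ∑ i, a i ≤ d}

omit [DecidableEq σ] in
theorem mem_Wt {d : ℕ} {f : MvPolynomial σ K} : f ∈ Wt K σ d ↔ ∀ a ∈ f.support, ∑ i, a i ≤ d := by
  unfold Wt
  rw [mem_restrictSupport_iff]
  exact Iff.rfl

omit [DecidableEq σ] in
theorem Wt_mono {d e : ℕ} (h : d ≤ e) : Wt K σ d ≤ Wt K σ e := by
  intro f hf
  rw [mem_Wt] at *
  exact fun a ha => (hf a ha).trans h

omit [DecidableEq σ] in
theorem Wt_mul {d e : ℕ} {f g : MvPolynomial σ K} (hf : f ∈ Wt K σ d) (hg : g ∈ Wt K σ e) :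
    f * g ∈ Wt K σ (d + e) := by
  classical
  rw [mem_Wt] at *
  intro a ha
  obtain ⟨b, hb, c, hc, rfl⟩ := Finset.mem_add.1 (support_mul f g ha)
  simp only [Finsupp.add_apply, Finset.sum_add_distrib]
  exact add_le_add (hf b hb) (hg c hc)

omit [DecidableEq σ] in
theorem Wt_one : (1 : MvPolynomial σ K) ∈ Wt K σ 0 := by
  classical
  rw [mem_Wt]
  intro a ha
  have : a = 0 := by
    by_contra h
    rw [mem_support_iff, coeff_one, if_neg (Ne.symm h)] at ha
    exact ha rfl
  subst this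
  simp

omit [DecidableEq σ] in
theorem Wt_C (c : K) : (C c : MvPolynomial σ K) ∈ Wt K σ 0 := by
  have h := (Wt K σ 0).smul_mem c Wt_one
  rwa [smul_eq_C_mul, mul_one] at h

omit [DecidableEq σ] in
theorem Wt_X (i : σ) : (X i : MvPolynomial σ K) ∈ Wt K σ 1 := by
  classical
  rw [mem_Wt]
  intro a ha
  have : a = Finsupp.single i 1 := by
    by_contra h
    rw [mem_support_iff, coeff_X, if_neg (Ne.symm h)] at ha
    exact ha rfl
  subst this
  rw [Finset.sum_eq_single i]
  · simp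
  · intro j _ hj
    rw [Finsupp.single_eq_of_ne]
    simpa using hj
  · simp

omit [DecidableEq σ] in
theorem Wt_pow {d : ℕ} {f : MvPolynomial σ K} (hf : f ∈ Wt K σ d) (n : ℕ) :
    f ^ n ∈ Wt K σ (n * d) := by
  induction n with
  | zero => simpa using Wt_one
  | succ n ih =>
    rw [pow_succ, Nat.succ_mul]
    exact Wt_mul ih hf

omit [DecidableEq σ] in
theorem Wt_prod {κ : Type*} (s : Finset κ) {d : κ → ℕ} {f : κ → MvPolynomial σ K}
    (hf : ∀ i ∈ s, f i ∈ Wt K σ (d i)) : ∏ i ∈ s, f i ∈ Wt K σ (∑ i ∈ s, d i) := by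
  classical
  induction s using Finset.induction_on with
  | empty => simpa using Wt_one
  | insert a s ha ih =>
    rw [Finset.prod_insert ha, Finset.sum_insert ha]
    exact Wt_mul (hf a (Finset.mem_insert_self a s)) (ih fun i hi => hf i (Finset.mem_insert_of_mem hi))

theorem Wt_basis (d : ℕ) : Module.Finite K (Wt K σ d) ∧
    Module.finrank K (Wt K σ d) = (Fintype.card σ + d).choose (Fintype.card σ) := by
  have e : {a : σ →₀ ℕ | ∑ i, a i ≤ d} = ↑(bal σ d) := by
    ext a
    rw [Finset.mem_coe, mem_bal]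
    rfl
  have : Fintype ({a : σ →₀ ℕ | ∑ i, a i ≤ d} : Set (σ →₀ ℕ)) := by
    rw [e]
    exact FinsetCoe.fintype _
  have b := basisRestrictSupport K ({a : σ →₀ ℕ | ∑ i, a i ≤ d} : Set (σ →₀ ℕ))
  refine ⟨Module.Finite.of_basis b, ?_⟩
  unfold Wt
  rw [Module.finrank_eq_card_basis b, ← card_bal]
  have h2 : Fintype.card ({a : σ →₀ ℕ | ∑ i, a i ≤ d} : Set (σ →₀ ℕ)) =
      Nat.card ({a : σ →₀ ℕ | ∑ i, a i ≤ d} : Set (σ →₀ ℕ)) := by
    rw [Nat.card_eq_fintype_card]
  rw [h2, e]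
  simp

omit [DecidableEq σ] in
/-- interpolation polynomials -/
theorem exists_interp' (p : ι → σ → K) (hp : Function.Injective p) :
    ∃ g : ι → MvPolynomial σ K, (∀ k l, eval (p k) (g l) = if k = l then 1 else 0) ∧
      ∀ l, g l ∈ Wt K σ (Fintype.card ι) := by
  have hi : ∀ l k : ι, ∃ u : MvPolynomial σ K, (l ≠ k → eval (p l) u = 1 ∧ eval (p k) u = 0) ∧
      u ∈ Wt K σ 1 := by
    intro l k
    by_cases hlk : l = k
    · exact ⟨1, fun h => absurd hlk h, Wt_mono (Nat.zero_le _) Wt_one⟩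
    · obtain ⟨i, hi⟩ : ∃ i, p l i ≠ p k i := by
        by_contra h
        push Not at h
        exact hlk (hp (funext h))
      refine ⟨(p l i - p k i)⁻¹ • (X i - C (p k i)), fun _ => ⟨?_, ?_⟩, ?_⟩
      · rw [smul_eval, map_sub, eval_X, eval_C, inv_mul_cancel₀ (sub_ne_zero.2 hi)]
      · rw [smul_eval, map_sub, eval_X, eval_C, sub_self, mul_zero]
      · exact Submodule.smul_mem _ _ (Submodule.sub_mem _ (Wt_X i) (Wt_mono (Nat.zero_le _) (Wt_C _)))
  choose u hu1 hu2 using hi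
  refine ⟨fun l => ∏ k ∈ univ.erase l, u l k, ?_, ?_⟩
  · intro k l
    rw [map_prod]
    split_ifs with hkl
    · subst hkl
      exact Finset.prod_eq_one fun j hj => (hu1 k j (Finset.ne_of_mem_erase hj).symm).1
    · exact Finset.prod_eq_zero (Finset.mem_erase.2 ⟨hkl, mem_univ k⟩) (hu1 l k (Ne.symm hkl)).2
  · intro l
    have h := Wt_prod (univ.erase l) (d := fun _ => 1) (f := u l) fun k _ => hu2 l k
    refine Wt_mono ?_ h
    rw [Finset.sum_const, smul_eq_mul, mul_one]
    exact Finset.card_le_univ _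

/-- weighted exponents: there are at least `|bal| / ∏ d_i` of weight `≤ D` -/
theorem card_weighted (d : τ → ℕ) (hd : ∀ i, 1 ≤ d i) (D : ℕ) :
    ∃ T : Finset (τ →₀ ℕ), (∀ a ∈ T, ∑ i, a i * d i ≤ D) ∧
      (Fintype.card τ + D).choose (Fintype.card τ) ≤ T.card * ∏ i, d i := by
  set φ : (τ →₀ ℕ) → (τ →₀ ℕ) := fun b => Finsupp.equivFunOnFinite.symm fun i => b i / d i with hφ
  set ρ : (τ →₀ ℕ) → (∀ i : τ, Fin (d i)) := fun b i => ⟨b i % d i, Nat.mod_lt _ (hd i)⟩ with hρ
  refine ⟨(bal τ D).image φ, ?_, ?_⟩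
  · intro a ha
    obtain ⟨b, hb, rfl⟩ := Finset.mem_image.1 ha
    rw [mem_bal] at hb
    refine (Finset.sum_le_sum fun i _ => ?_).trans hb
    exact Nat.div_mul_le_self _ _
  · have h1 : ((bal τ D).image fun b => (φ b, ρ b)).card = (bal τ D).card := by
      apply Finset.card_image_of_injective
      intro b c hbc
      simp only [Prod.mk.injEq] at hbc
      ext i
      have e1 : b i / d i = c i / d i := DFunLike.congr_fun hbc.1 i
      have e2 : b i % d i = c i % d i := congrArg Fin.val (congrFun hbc.2 i)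
      rw [← Nat.div_add_mod (b i) (d i), e1, e2, Nat.div_add_mod]
    have h2 : ((bal τ D).image fun b => (φ b, ρ b)) ⊆
        ((bal τ D).image φ) ×ˢ (Finset.univ : Finset (∀ i : τ, Fin (d i))) := by
      intro x hx
      obtain ⟨b, hb, rfl⟩ := Finset.mem_image.1 hx
      exact Finset.mem_product.2 ⟨Finset.mem_image_of_mem _ hb, Finset.mem_univ _⟩
    have h3 := Finset.card_le_card h2
    rw [h1, card_bal, Finset.card_product, Finset.card_univ, Fintype.card_pi] at h3
    simpa using h3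

/-- the affine Bezout inequality -/
theorem bezA [Infinite K] (f : τ → MvPolynomial σ K) (d : τ → ℕ) (hd : ∀ i, 1 ≤ d i)
    (hfd : ∀ i, f i ∈ Wt K σ (d i)) (hc : Fintype.card τ = Fintype.card σ)
    (p : ι → σ → K) (hp : Function.Injective p) (hf : ∀ k i, eval (p k) (f i) = 0)
    (hJ : ∀ k, Function.Surjective (jac f (p k))) :
    Fintype.card ι ≤ ∏ i, d i := by
  set S := Fintype.card ι with hS
  set n := Fintype.card σ with hn
  have hD : ∀ D : ℕ, S * (n + D).choose n ≤ (∏ i, d i) * (n + (D + S)).choose n := by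
    intro D
    obtain ⟨g, hg1, hg2⟩ := exists_interp' p hp
    obtain ⟨hfin, hrank⟩ := Wt_basis (K := K) (σ := σ) (D + S)
    have := hfin
    obtain ⟨T, hT1, hT2⟩ := card_weighted d hd D
    have h := card_le f p hf hJ g hg1 T (Wt K σ (D + S)) ?_
    · rw [hrank, ← hn, ← hS] at h
      rw [hc] at hT2
      calc S * (n + D).choose n ≤ S * (T.card * ∏ i, d i) := Nat.mul_le_mul_left _ hT2
        _ = (∏ i, d i) * (S * T.card) := by ring
        _ ≤ (∏ i, d i) * (n + (D + S)).choose n := Nat.mul_le_mul_left _ h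
    · intro k a ha
      have h1 := Wt_prod (univ : Finset τ) (d := fun i => a i * d i) (f := fun i => f i ^ a i)
        fun i _ => Wt_pow (hfd i) _
      have h2 := Wt_mul (hg2 k) h1
      refine Wt_mono ?_ h2
      have := hT1 a ha
      omega
  -- limit
  have hT : ∀ D : ℕ, 1 ≤ D → (S : ℝ) ≤ ((∏ i, d i : ℕ) : ℝ) * (1 + (n + S : ℕ) / D) ^ n := by
    intro D hD1
    have hDp : (0 : ℝ) < D := by exact_mod_cast hD1
    have h := hD D
    have h' : (S : ℝ) * ((n + D).choose n : ℝ) ≤ ((∏ i, d i : ℕ) : ℝ) * ((n + (D + S)).choose n : ℝ) := by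
      exact_mod_cast h
    have l1 : (D : ℝ) ^ n ≤ (n.factorial : ℝ) * ((n + D).choose n : ℝ) := by
      have h3 := Nat.pow_le_choose (α := ℝ) n (n + D)
      rw [div_le_iff₀ (by positivity), show n + D + 1 - n = D + 1 by omega] at h3
      have h4 : (D : ℝ) ^ n ≤ ((D + 1 : ℕ) : ℝ) ^ n := by
        gcongr
        push_cast
        linarith
      linarith
    have u1 : (n.factorial : ℝ) * ((n + (D + S)).choose n : ℝ) ≤ (1 + (n + S : ℕ) / D) ^ n * (D : ℝ) ^ n := by
      have := Nat.choose_le_pow_div (α := ℝ) n (n + (D + S))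
      rw [le_div_iff₀ (by positivity)] at this
      rw [← mul_pow, add_mul, div_mul_cancel₀ _ hDp.ne']
      rw [mul_comm]
      refine this.trans (le_of_eq ?_)
      push_cast
      ring
    have hpos : (0 : ℝ) < (D : ℝ) ^ n := by positivity
    refine le_of_mul_le_mul_right ?_ hpos
    calc (S : ℝ) * (D : ℝ) ^ n ≤ S * ((n.factorial : ℝ) * ((n + D).choose n : ℝ)) := by gcongr
      _ = (n.factorial : ℝ) * (S * ((n + D).choose n : ℝ)) := by ring
      _ ≤ (n.factorial : ℝ) * (((∏ i, d i : ℕ) : ℝ) * ((n + (D + S)).choose n : ℝ)) := by gcongr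
      _ = ((∏ i, d i : ℕ) : ℝ) * ((n.factorial : ℝ) * ((n + (D + S)).choose n : ℝ)) := by ring
      _ ≤ ((∏ i, d i : ℕ) : ℝ) * ((1 + (n + S : ℕ) / D) ^ n * (D : ℝ) ^ n) := by gcongr
      _ = _ := by ring
  have lim : Filter.Tendsto (fun D : ℕ => ((∏ i, d i : ℕ) : ℝ) * (1 + (n + S : ℕ) / (D : ℝ)) ^ n)
      Filter.atTop (nhds (((∏ i, d i : ℕ) : ℝ) * (1 + 0) ^ n)) :=
    Filter.Tendsto.const_mul _ (((tendsto_const_div_atTop_nhds_zero_nat _).const_add _).pow _)
  have fin := ge_of_tendsto lim (Filter.eventually_atTop.2 ⟨1, hT⟩)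
  rw [add_zero, one_pow, mul_one] at fin
  exact_mod_cast fin

end Circ
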