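import Mathlib

/-!
Numerical part: from `(d!) ^ (2 (2 d - 1)) ≤ 8 ^ r` to `c n ^ 2 log n ≤ r`.
-/
namespace Circ
open Finset

theorem log_fact (d : ℕ) (hd : 4 ≤ d) : (d : ℝ) * Real.log d / 4 ≤ Real.log (d.factorial : ℝ) := by
  have hd0 : (0 : ℝ) < d := by exact_mod_cast (by omega : 0 < d)
  have h1 := Real.pow_div_factorial_le_exp (d : ℝ) (by positivity) d
  have hf : (0 : ℝ) < (d.factorial : ℝ) := by exact_mod_cast Nat.factorial_pos d
  rw [div_le_iff₀ hf] at h1
  have h2 := Real.log_le_log (by positivity) h1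
  rw [Real.log_pow, Real.log_mul (Real.exp_pos _).ne' hf.ne', Real.log_exp] at h2
  have h3 : (4 : ℝ) / 3 ≤ Real.log d := by
    have h4 : Real.log 4 ≤ Real.log d := Real.log_le_log (by norm_num) (by exact_mod_cast hd)
    have h5 : Real.log 4 = 2 * Real.log 2 := by
      rw [show (4 : ℝ) = 2 ^ 2 by norm_num, Real.log_pow]
      norm_num
    have := Real.log_two_gt_d9
    rw [h5] at h4
    linarith
  nlinarith

theorem numericC (C₀ : ℕ) (hC : 1 ≤ C₀) : ∃ c : ℝ, 0 < c ∧ ∀ n r : ℕ, 2 ≤ n → 1 ≤ r →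
    (∀ M d : ℕ, 2 ≤ M → M ^ 3 = 2 * d → 2 ≤ d → C₀ * M ^ 3 ≤ n →
      d.factorial ^ (2 * (2 * d - 1)) ≤ 8 ^ r) → c * (n : ℝ) ^ 2 * Real.log n ≤ r := by
  have hCR : (1 : ℝ) ≤ C₀ := by exact_mod_cast hC
  set A : ℝ := 16 * C₀ with hA
  have hA1 : 1 ≤ A := by rw [hA]; linarith
  have hlA : 0 ≤ Real.log A := Real.log_nonneg hA1
  -- the constant
  set c₁ : ℝ := 1 / (A ^ 2 * (1 + Real.log A) * 6) with hc₁
  set c₂ : ℝ := 1 / (A ^ 2 * A) with hc₂
  have hc₁0 : 0 < c₁ := by positivity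
  have hc₂0 : 0 < c₂ := by positivity
  refine ⟨min c₁ c₂, lt_min hc₁0 hc₂0, fun n r hn hr H => ?_⟩
  have hn0 : (0 : ℝ) < n := by exact_mod_cast (by omega : 0 < n)
  have hn1 : (1 : ℝ) ≤ n := by exact_mod_cast (by omega : 1 ≤ n)
  have hln : 0 ≤ Real.log n := Real.log_nonneg hn1
  have hr1 : (1 : ℝ) ≤ r := by exact_mod_cast hr
  set k := Nat.findGreatest (fun k => C₀ * (2 * k) ^ 3 ≤ n) n with hk
  have hk1 : C₀ * (2 * k) ^ 3 ≤ n := by
    have := Nat.findGreatest_spec (P := fun k => C₀ * (2 * k) ^ 3 ≤ n) (Nat.zero_le n) (by simp)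
    exact this
  have hk2 : n < C₀ * (2 * (k + 1)) ^ 3 := by
    by_contra hcon
    push Not at hcon
    have h1 : k + 1 ≤ n := by
      calc k + 1 ≤ (2 * (k + 1)) ^ 3 := by
            have : 2 * (k + 1) ≤ (2 * (k + 1)) ^ 3 := Nat.le_self_pow (by norm_num) _
            omega
        _ ≤ C₀ * (2 * (k + 1)) ^ 3 := Nat.le_mul_of_pos_left _ (by omega)
        _ ≤ n := hcon
    have h2 := Nat.le_findGreatest (P := fun k => C₀ * (2 * k) ^ 3 ≤ n) h1 hcon
    rw [← hk] at h2
    omega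
  rcases Nat.eq_zero_or_pos k with h0 | hkpos
  · -- small `n`
    rw [h0] at hk2
    have hnA : (n : ℝ) ≤ A := by
      have : n ≤ 16 * C₀ := by omega
      rw [hA]
      exact_mod_cast this
    calc min c₁ c₂ * (n : ℝ) ^ 2 * Real.log n ≤ c₂ * (n : ℝ) ^ 2 * Real.log n := by
          gcongr
          exact min_le_right _ _
      _ ≤ c₂ * A ^ 2 * A := by
          have h1 : Real.log n ≤ A := (Real.log_le_self hn0.le).trans hnA
          gcongr
      _ = 1 := by rw [hc₂]; field_simp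
      _ ≤ r := hr1
  · -- large `n`
    set d := 4 * k ^ 3 with hd
    have hk3 : 1 ≤ k ^ 3 := Nat.one_le_pow _ _ hkpos
    have hd4 : 4 ≤ d := by omega
    have hM : (2 * k) ^ 3 = 2 * d := by rw [hd]; ring
    have h1 := H (2 * k) d (by omega) hM (by omega) hk1
    have hnd : n < 16 * C₀ * d := by
      refine hk2.trans_le ?_
      have h2 : (2 * (k + 1)) ^ 3 ≤ (4 * k) ^ 3 := Nat.pow_le_pow_left (by omega) 3
      calc C₀ * (2 * (k + 1)) ^ 3 ≤ C₀ * (4 * k) ^ 3 := Nat.mul_le_mul_left _ h2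
        _ = 16 * C₀ * d := by rw [hd]; ring
    have hd0 : (0 : ℝ) < d := by exact_mod_cast (by omega : 0 < d)
    have hndR : (n : ℝ) ≤ A * d := by
      rw [hA]
      exact_mod_cast hnd.le
    have hlogd : 1 ≤ Real.log d := by
      have h4 : Real.log 4 ≤ Real.log d := Real.log_le_log (by norm_num) (by exact_mod_cast hd4)
      have h5 : Real.log 4 = 2 * Real.log 2 := by
        rw [show (4 : ℝ) = 2 ^ 2 by norm_num, Real.log_pow]
        norm_num
      have := Real.log_two_gt_d9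
      rw [h5] at h4
      linarith
    have hlogn : Real.log n ≤ (1 + Real.log A) * Real.log d := by
      calc Real.log n ≤ Real.log (A * d) := Real.log_le_log hn0 hndR
        _ = Real.log A + Real.log d := Real.log_mul (by positivity) hd0.ne'
        _ ≤ (1 + Real.log A) * Real.log d := by nlinarith
    -- logarithm of the inequality
    have h1R : ((d.factorial : ℝ)) ^ (2 * (2 * d - 1)) ≤ 8 ^ r := by exact_mod_cast h1
    have h2 := Real.log_le_log (by positivity) h1R
    rw [Real.log_pow, Real.log_pow] at h2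
    have h3 := log_fact d hd4
    have h8 : Real.log 8 ≤ 3 := by
      rw [show (8 : ℝ) = 2 ^ 3 by norm_num, Real.log_pow]
      have := Real.log_two_lt_d9
      push_cast
      linarith
    have h5 : (2 * d : ℝ) ≤ ((2 * (2 * d - 1) : ℕ) : ℝ) := by
      have : 2 * d ≤ 2 * (2 * d - 1) := by omega
      exact_mod_cast this
    have h6 : (d : ℝ) ^ 2 * Real.log d / 2 ≤ 3 * r := by
      calc (d : ℝ) ^ 2 * Real.log d / 2 = (2 * d) * (d * Real.log d / 4) := by ring
        _ ≤ ((2 * (2 * d - 1) : ℕ) : ℝ) * Real.log (d.factorial : ℝ) := by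
            gcongr
        _ ≤ r * Real.log 8 := h2
        _ ≤ r * 3 := by gcongr
        _ = 3 * r := by ring
    calc min c₁ c₂ * (n : ℝ) ^ 2 * Real.log n ≤ c₁ * (n : ℝ) ^ 2 * Real.log n := by
          gcongr
          exact min_le_left _ _
      _ ≤ c₁ * (A * d) ^ 2 * ((1 + Real.log A) * Real.log d) := by gcongr
      _ = (d : ℝ) ^ 2 * Real.log d / 2 / 3 := by
          rw [hc₁]
          have : (1 + Real.log A) ≠ 0 := by positivity
          field_simp
          ring
      _ ≤ 3 * r / 3 := by gcongr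
      _ = r := by ring

end Circ
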