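import Pool.Agent.Helper74.Circ.Proj
import Pool.Agent.Helper74.Circ.NumC
import Pool.Agent.Helper11.DC.Device

/-!
Lower bound for circuits computing (approximately) the permanent, from the device.
-/
namespace Circ
open MvPolynomial Finset Pool.Agent.Helper24.SQ Pool.Agent.Helper63.PC

/-- Without multiplications only affine polynomials are computed. -/
theorem BorderMul.pos {n r : ℕ} (h : BorderMul n r) (hn : 2 ≤ n) : 1 ≤ r := by
  by_contra hr
  have hr0 : r = 0 := by omega
  subst hr0
  set s : Fin n × Fin n →₀ ℕ := ∑ i : Fin n, Finsupp.single (i, i) 1 with hs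
  -- the coefficient of the diagonal monomial
  have hc : (permPoly n).coeff s = 1 := by
    have hp : permPoly n = ∑ π : Equiv.Perm (Fin n), monomial (∑ i : Fin n, Finsupp.single (π i, i) 1) (1 : ℂ) := by
      unfold permPoly Matrix.permanent
      refine Finset.sum_congr rfl fun π _ => ?_
      simp only [Matrix.of_apply, X]
      rw [monomial_sum_one]
    rw [hp, coeff_sum, Finset.sum_eq_single (1 : Equiv.Perm (Fin n))]
    · rw [coeff_monomial, if_pos]
      rfl
    · intro π _ hπ
      rw [coeff_monomial, if_neg]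
      intro he
      apply hπ
      ext i
      by_contra hne
      have h1 := DFunLike.congr_fun he (i, i)
      rw [hs, Finsupp.finsetSum_apply, Finsupp.finsetSum_apply, Finset.sum_eq_zero,
        Finset.sum_eq_single i] at h1
      · simp at h1
      · intro b _ hb
        rw [Finsupp.single_apply, if_neg]
        intro h
        exact hb (Prod.mk.inj h).1
      · simp
      · intro b _
        rw [Finsupp.single_apply, if_neg]
        intro h
        obtain ⟨h2, h3⟩ := Prod.mk.inj h
        subst h3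
        apply hne
        simp [h2]
    · simp
  have hdeg : (s.sum fun _ e => e) = n := by
    rw [Finsupp.sum_fintype _ _ (fun _ => rfl), hs]
    simp only [Finsupp.finsetSum_apply]
    rw [Finset.sum_comm]
    have : ∀ i : Fin n, ∑ x : Fin n × Fin n, (Finsupp.single (i, i) 1 : Fin n × Fin n →₀ ℕ) x = 1 := by
      intro i
      rw [Finset.sum_eq_single (i, i)]
      · simp
      · intro b _ hb
        rw [Finsupp.single_apply, if_neg (Ne.symm hb)]
      · simp
    simp [this]
  obtain ⟨P, hP, hPc⟩ := h 1 one_pos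
  have h1 := hPc s
  have h2 := hP.totalDegree_le
  rw [hc, coeff_eq_zero_of_totalDegree_lt] at h1
  · simp at h1
  · refine lt_of_le_of_lt h2 ?_
    have : ∑ i ∈ s.support, s i = n := hdeg
    rw [this]
    rw [pow_zero]
    exact hn

/-- From the device to the lower bound. -/
theorem circuit_bound (C₀ : ℕ) (hC : 1 ≤ C₀)
    (hdev : ∀ M d : ℕ, 2 ≤ M → M ^ 3 = 2 * d → 2 ≤ d →
      ∃ P ≤ C₀ * M ^ 3, ExpProj P (d + 1) (vco 3 M) (fun k i => ((k i : Fin M) : ℕ))) :
    ∃ c : ℝ, 0 < c ∧ ∀ n r : ℕ, 2 ≤ n → BorderMul n r → c * (n : ℝ) ^ 2 * Real.log n ≤ r := by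
  obtain ⟨c, hc, h⟩ := numericC C₀ hC
  refine ⟨c, hc, fun n r hn hr => h n r hn (hr.pos hn) fun M d hM hMd hd hle => ?_⟩
  obtain ⟨P, hP, hE⟩ := hdev M d hM hMd hd
  exact circ_ineq hMd hd hE (hP.trans hle) hr

/-- The lower bound for circuits. -/
theorem final : ∃ c : ℝ, 0 < c ∧ ∀ n r : ℕ, 2 ≤ n → BorderMul n r → c * (n : ℝ) ^ 2 * Real.log n ≤ r :=
  circuit_bound 702 (by norm_num) fun M d hM hMd hd =>
    Pool.Agent.Helper11.DC.device (by omega) (by omega)

/-- exact computation -/
theorem BorderMul.of_mulRep {n r : ℕ} (h : MulRep (permPoly n) r) : BorderMul n r :=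
  fun ε hε => ⟨permPoly n, h, fun s => by simpa using hε⟩

/-! ### circuits with the usual gates -/

section

variable {K : Type*} [Field K] {σ : Type*} [Fintype σ] [DecidableEq σ]

/-- `g 0, …, g (s - 1)` are the polynomials computed at the gates of an arithmetic circuit with `s` gates: each gate is a
constant, a variable, or a sum, difference, product or scalar multiple of preceding gates. -/
def IsCircuit (g : ℕ → MvPolynomial σ K) (s : ℕ) : Prop :=
  ∀ k < s, (∃ a, g k = C a) ∨ (∃ v, g k = X v) ∨ (∃ i < k, ∃ j < k, g k = g i + g j) ∨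
    (∃ i < k, ∃ j < k, g k = g i - g j) ∨ (∃ a, ∃ i < k, g k = C a * g i) ∨ (∃ i < k, ∃ j < k, g k = g i * g j)

/-- a circuit with `s` gates uses at most `s` multiplications -/
theorem IsCircuit.mulRep {g : ℕ → MvPolynomial σ K} {s : ℕ} (h : IsCircuit g s) :
    ∃ y : ℕ → MvPolynomial σ K, IsProg y s ∧ ∀ k < s, LinComb y s (g k) := by
  induction s with
  | zero => exact ⟨0, fun k hk => absurd hk (Nat.not_lt_zero k), fun k hk => absurd hk (Nat.not_lt_zero k)⟩
  | succ s ih =>
    obtain ⟨y, hy, hg⟩ := ih fun k hk => h k (hk.trans (Nat.lt_succ_self s))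
    -- an additional multiplication with value `u * v`
    have key : ∀ u v : MvPolynomial σ K, LinComb y s u → LinComb y s v →
        (g s = u * v ∨ LinComb y s (g s)) →
        ∃ y : ℕ → MvPolynomial σ K, IsProg y (s + 1) ∧ ∀ k < s + 1, LinComb y (s + 1) (g k) := by
      intro u v hu hv hs
      obtain ⟨y', hy', hyy, hu'⟩ := hy.extend hu hv
      refine ⟨y', hy', fun k hk => ?_⟩
      rcases Nat.lt_succ_iff_lt_or_eq.1 hk with hk' | rfl
      · exact (hg k hk').mono (Nat.le_succ _) hyy
      · rcases hs with hs | hs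
        · rw [hs, ← hu']
          exact LinComb.gate (Nat.lt_succ_self _)
        · exact hs.mono (Nat.le_succ _) hyy
    rcases h s (Nat.lt_succ_self s) with ⟨a, e⟩ | ⟨v, e⟩ | ⟨i, hi, j, hj, e⟩ | ⟨i, hi, j, hj, e⟩ | ⟨a, i, hi, e⟩ |
      ⟨i, hi, j, hj, e⟩
    · exact key 0 0 LinComb.zero LinComb.zero (Or.inr (e ▸ LinComb.const a))
    · exact key 0 0 LinComb.zero LinComb.zero (Or.inr (e ▸ LinComb.var v))
    · exact key 0 0 LinComb.zero LinComb.zero (Or.inr (e ▸ (hg i hi).add (hg j hj)))
    · refine key 0 0 LinComb.zero LinComb.zero (Or.inr ?_)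
      have h1 := (hg i hi).add ((hg j hj).smul (-1))
      rw [e]
      convert h1 using 1
      rw [C_neg, C_1]
      ring
    · exact key 0 0 LinComb.zero LinComb.zero (Or.inr (e ▸ (hg i hi).smul a))
    · exact key _ _ (hg i hi) (hg j hj) (Or.inl e)

end

end Circ
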