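import Pool.Agent.Helper63.PC.Bridge
import Pool.Agent.Helper74.Circ.Near

/-!
Projections of the permanent with many critical points, and circuits.
-/
namespace Circ
open MvPolynomial Finset Pool.Agent.Helper24.SQ Pool.Agent.Helper63.PC Pool.Agent.Helper63.N3 Helper16.N3

section

variable {R Λ Cc : Type} [Fintype R] [Fintype Λ] [DecidableEq R] [DecidableEq Λ]

/-- the first half of `Pool.Agent.Helper63.PC.limit`: critical points of a projection of the permanent -/
theorem proj_crit {M s : ℕ} (co : R → Λ → Cc) (hco : ∀ k, Function.Injective fun r => co r k)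
    (hs : 1 ≤ s) (hG : GoodProj M s co) {ι : Type} [Fintype ι]
    (V : R × Λ → MvPolynomial (Option ι) ℂ) (hV : ∀ q, (V q).totalDegree ≤ 1)
    (Z : Finset (Option ι → ℂ))
    (hZ : ∀ z ∈ Z, CritPt (∑ k : Λ, ∑ T ∈ powersetCard s (univ : Finset R), ∏ x ∈ T, V (x, k)) z) :
    ∃ f : Fin M × Fin M → MvPolynomial (Option ι) ℂ, (∀ q, (f q).totalDegree ≤ 1) ∧
      ∃ Z' : Finset (Option ι → ℂ), Z'.card = Z.card ∧ ∀ z ∈ Z', CritPt (aeval f (permPoly M)) z := by
  classical
  let κ : Type := {S // S ∈ match' co s}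
  obtain ⟨ε, hε, H⟩ := crit_persist
    (∑ k : Λ, ∑ T ∈ powersetCard s (univ : Finset R), ∏ x ∈ T, V (x, k))
    (fun q : κ => ∏ q ∈ q.1, V q) Z hZ
  obtain ⟨e, c, w, sc, hc, hE, hw1, hw2⟩ := hG ε hε
  obtain ⟨Z₁, hZ₁, hcrit₁⟩ := H (fun q => if Const q.1 then 0 else w q.1 * ∏ q ∈ q.1, sc q) (by
      intro q
      split_ifs with h0
      · simpa using hε
      · exact hw2 q.1 q.2 h0)
  set f : Fin M × Fin M → MvPolynomial (Option ι) ℂ := fun q =>
    (e q.1 q.2).elim (algebraMap ℂ _) (fun q => C (sc q) * V q) with hf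
  have hfd : ∀ q, (f q).totalDegree ≤ 1 := by
    intro q
    simp only [hf]
    rcases e q.1 q.2 with v | q'
    · simp only [Sum.elim_inl, algebraMap_eq, totalDegree_C, zero_le]
    · simp only [Sum.elim_inr]
      refine (totalDegree_mul _ _).trans ?_
      rw [totalDegree_C, zero_add]
      exact hV _
  have hF : aeval f (permPoly M) = C c *
      (∑ k : Λ, ∑ T ∈ powersetCard s (univ : Finset R), ∏ x ∈ T, V (x, k) + ∑ q : κ,
      (if Const q.1 then 0 else w q.1 * ∏ q ∈ q.1, sc q) • ∏ q ∈ q.1, V q) := by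
    rw [aeval_permPoly]
    refine (hE (MvPolynomial (Option ι) ℂ) (fun q => C (sc q) * V q)).trans ?_
    rw [algebraMap_eq]
    congr 1
    rw [Finset.sum_coe_sort (match' co s) (fun S =>
      (if Const S then 0 else w S * ∏ q ∈ S, sc q) • ∏ q ∈ S, V q)]
    rw [sum_const co hco s hs, ← sum_add_distrib]
    refine sum_congr rfl fun S hS => ?_
    rw [prod_mul_distrib, ← map_prod C, ← mul_assoc, ← C_mul]
    split_ifs with h0
    · rw [hw1 S hS h0, C_1, one_mul, zero_smul, add_zero]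
    · rw [zero_add, smul_eq_C_mul]
  exact ⟨f, hfd, Z₁, hZ₁, fun z hz => by
    rw [hF]
    exact critPt_smul _ c hc z (hcrit₁ z hz)⟩

/-- Affine substitution after the projection of a larger permanent. -/
theorem proj_mono {M n : ℕ} (hn : M ≤ n) {ι : Type} (f : Fin M × Fin M → MvPolynomial (Option ι) ℂ)
    (hf : ∀ q, (f q).totalDegree ≤ 1) :
    ∃ g : Fin n × Fin n → MvPolynomial (Option ι) ℂ, (∀ q, (g q).totalDegree ≤ 1) ∧
      aeval g (permPoly n) = aeval f (permPoly M) := by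
  obtain ⟨φ, hφ, hφ'⟩ := exists_proj_perm hn
  refine ⟨fun q => aeval f (φ q), fun q => ?_, ?_⟩
  · dsimp only
    rw [eq_of_totalDegree_le_one (φ q) (hφ q)]
    simp only [map_add, map_sum, map_mul, MvPolynomial.algHom_C, MvPolynomial.aeval_X, algebraMap_eq]
    refine (totalDegree_add _ _).trans (max_le ?_ ?_)
    · rw [totalDegree_C]
      exact Nat.zero_le _
    · refine totalDegree_finsetSum_le fun t _ => (totalDegree_mul _ _).trans ?_
      rw [totalDegree_C, zero_add]
      exact hf t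
  · rw [← hφ', ← AlgHom.comp_apply]
    congr 1
    ext q
    simp

/-- Projections of the permanent with `(d!)^(2 (card Λ - 1))` critical points. -/
theorem exists_proj {M n d : ℕ} (co : R → Λ → Cc) (hco : ∀ k, Function.Injective fun r => co r k)
    (hd : 2 ≤ d) (hR : Fintype.card R = 2 * d) (hΛ : 1 ≤ Fintype.card Λ)
    (hG : GoodProj M (d + 1) co) (hn : M ≤ n) :
    ∃ (ι : Type) (_ : Fintype ι), Fintype.card ι = (Fintype.card Λ - 1) * (2 * d) ∧
      ∃ f : Fin n × Fin n → MvPolynomial (Option ι) ℂ, (∀ q, (f q).totalDegree ≤ 1) ∧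
        ∃ Z : Finset (Option ι → ℂ), (∀ z ∈ Z, CritPt (aeval f (permPoly n)) z) ∧
          Z.card = d.factorial ^ (2 * (Fintype.card Λ - 1)) := by
  classical
  obtain ⟨k₀⟩ : Nonempty Λ := Fintype.card_pos_iff.1 (by omega)
  obtain ⟨T₁, _, hT₁⟩ := exists_subset_card_eq (s := (univ : Finset R)) (n := d + 1)
    (by rw [card_univ, hR]; omega)
  obtain ⟨x₀, hx₀⟩ : T₁.Nonempty := card_pos.1 (by omega)
  obtain ⟨Z, hZ, hcard⟩ := Pool.Agent.Helper40.CB.exists_crit0 (K := ℂ) (Z := {k : Λ // k ≠ k₀})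
    (J := R) hR hd (by exact_mod_cast (by omega : d ≠ 0))
    (Complex.isPrimitiveRoot_exp d (by omega))
  obtain ⟨f, hf, Z', hZ', hcrit⟩ := proj_crit co hco (Nat.le_add_left 1 d) hG
    (VV d k₀ x₀ (T₁.erase x₀)) (VV_totalDegree d k₀ x₀ (T₁.erase x₀)) Z (by
      intro z hz
      rw [sum_VV d k₀ x₀ (T₁.erase x₀) (notMem_erase _ _) (by rw [card_erase_of_mem hx₀]; omega)]
      exact hZ z hz)
  obtain ⟨g, hg, hg'⟩ := proj_mono hn f hf
  have hcΛ : Fintype.card {k : Λ // k ≠ k₀} = Fintype.card Λ - 1 := by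
    rw [Fintype.card_subtype_compl, Fintype.card_subtype_eq]
  refine ⟨{k : Λ // k ≠ k₀} × R, inferInstance, by rw [Fintype.card_prod, hcΛ, hR], g, hg, Z', ?_, ?_⟩
  · rw [hg']
    exact hcrit
  · rw [hZ', hcard, hcΛ]

end

/-- Vector labels: the interface with the device. -/
theorem exists_proj_vec {D M P n d : ℕ} (hM : M ^ D = 2 * d) (hd : 2 ≤ d)
    (hE : ExpProj P (d + 1) (vco D M) (fun k i => ((k i : Fin M) : ℕ))) (hn : P ≤ n) :
    ∃ (ι : Type) (_ : Fintype ι), Fintype.card ι = (2 * d - 1) * (2 * d) ∧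
      ∃ f : Fin n × Fin n → MvPolynomial (Option ι) ℂ, (∀ q, (f q).totalDegree ≤ 1) ∧
        ∃ Z : Finset (Option ι → ℂ), (∀ z ∈ Z, CritPt (aeval f (permPoly n)) z) ∧
          Z.card = d.factorial ^ (2 * (2 * d - 1)) := by
  have hc : Fintype.card (Fin D → Fin M) = 2 * d := by
    rw [Fintype.card_fun, Fintype.card_fin, Fintype.card_fin, hM]
  have h1 := exists_proj (vco D M) (vco_inj D M) hd hc (by rw [hc]; omega)
    (goodProj_of_expProj (vco D M) (fun k i => ((k i : Fin M) : ℕ)) (by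
      intro k k' hk
      funext i
      exact Fin.ext (congrFun hk i)) (Nat.le_add_left 1 d) hE) hn
  rw [hc] at h1
  exact h1

/-- The counting inequality for circuits. -/
theorem circ_ineq {D M P n r d : ℕ} (hM : M ^ D = 2 * d) (hd : 2 ≤ d)
    (hE : ExpProj P (d + 1) (vco D M) (fun k i => ((k i : Fin M) : ℕ))) (hn : P ≤ n)
    (h : BorderMul n r) : d.factorial ^ (2 * (2 * d - 1)) ≤ 8 ^ r := by
  obtain ⟨ι, _, _, f, hf, Z, hZ, hc⟩ := exists_proj_vec hM hd hE hn
  rw [← hc]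
  exact border_crit h f hf Z hZ

end Circ
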