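import Pool.Agent.Helper74.Circ.SLP

/-!
The degree bound: a system of `|σ|` polynomials in `|σ|` variables computed with `r` multiplications has at most `2 ^ r`
nondegenerate zeros.
-/
namespace Circ
open MvPolynomial Finset Bez

variable {K : Type*} [Field K] {σ : Type*} [Fintype σ] [DecidableEq σ]

/-- the variable for the `j`-th multiplication -/
noncomputable def yv (K : Type*) [Field K] (σ : Type*) (r j : ℕ) : MvPolynomial (σ ⊕ Fin r) K :=
  if h : j < r then X (Sum.inr ⟨j, h⟩) else 0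

/-- the affine form -/
noncomputable def hat (r k : ℕ) (c : K) (α : σ → K) (β : ℕ → K) : MvPolynomial (σ ⊕ Fin r) K :=
  C c + ∑ v, C (α v) * X (Sum.inl v) + ∑ j ∈ range k, C (β j) * yv K σ r j

/-- the point -/
noncomputable def ptc (y : ℕ → MvPolynomial σ K) (r : ℕ) (z : σ → K) : σ ⊕ Fin r → K :=
  Sum.elim z fun j => eval z (y j)

omit [DecidableEq σ] in
theorem eval_hat (y : ℕ → MvPolynomial σ K) (r k : ℕ) (hk : k ≤ r) (z : σ → K) (c : K) (α : σ → K)
    (β : ℕ → K) : eval (ptc y r z) (hat r k c α β) =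
      eval z (C c + ∑ v, C (α v) * X v + ∑ j ∈ range k, C (β j) * y j) := by
  simp only [hat, map_add, map_sum, map_mul, eval_C, eval_X]
  congr 1
  refine Finset.sum_congr rfl fun j hj => ?_
  have hj' : j < r := (mem_range.1 hj).trans_le hk
  simp only [yv, dif_pos hj', eval_X, ptc, Sum.elim_inr]

/-- derivative at `0` of the restriction to a line -/
noncomputable def dl {σ : Type*} (z v : σ → K) (f : MvPolynomial σ K) : K :=
  (Polynomial.derivative (ln z v f)).eval 0

section dl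
variable {σ : Type*} (z v : σ → K)

theorem dl_C (c : K) : dl z v (C c) = 0 := by simp [dl, ln]
theorem dl_X (i : σ) : dl z v (X i) = v i := by simp [dl, ln]
theorem dl_zero : dl z v 0 = 0 := by simp [dl]
theorem dl_add (f g : MvPolynomial σ K) : dl z v (f + g) = dl z v f + dl z v g := by simp [dl]
theorem dl_sub (f g : MvPolynomial σ K) : dl z v (f - g) = dl z v f - dl z v g := by simp [dl]
theorem dl_sum {κ : Type*} (s : Finset κ) (f : κ → MvPolynomial σ K) :
    dl z v (∑ i ∈ s, f i) = ∑ i ∈ s, dl z v (f i) := by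
  simp [dl, map_sum, Polynomial.eval_finsetSum]
theorem dl_mul (f g : MvPolynomial σ K) : dl z v (f * g) = dl z v f * eval z g + eval z f * dl z v g := by
  simp only [dl]
  rw [map_mul, Polynomial.derivative_mul, Polynomial.eval_add, Polynomial.eval_mul, Polynomial.eval_mul,
    ln_eval, ln_eval]
theorem dl_C_mul (c : K) (f : MvPolynomial σ K) : dl z v (C c * f) = c * dl z v f := by
  rw [dl_mul, dl_C, eval_C, zero_mul, zero_add]
end dl

theorem dl_zero_dir (z : σ → K) (f : MvPolynomial σ K) : dl z 0 f = 0 := by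
  unfold dl
  rw [ln_deriv]
  simp

omit [DecidableEq σ] in
theorem dl_hat (y : ℕ → MvPolynomial σ K) (r k : ℕ) (hk : k ≤ r) (z : σ → K) (V : σ ⊕ Fin r → K) (w : σ → K)
    (hw : ∀ v, V (Sum.inl v) = w v) (hη : ∀ j (h : j < r), j < k → V (Sum.inr ⟨j, h⟩) = dl z w (y j))
    (c : K) (α : σ → K) (β : ℕ → K) : dl (ptc y r z) V (hat r k c α β) =
      dl z w (C c + ∑ v, C (α v) * X v + ∑ j ∈ range k, C (β j) * y j) := by
  simp only [hat, dl_add, dl_sum, dl_C_mul, dl_C, dl_X, hw]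
  congr 1
  refine Finset.sum_congr rfl fun j hj => ?_
  have hj' : j < r := (mem_range.1 hj).trans_le hk
  simp only [yv, dif_pos hj', dl_X, hη j hj' (mem_range.1 hj)]

omit [DecidableEq σ] in
theorem hat_mem (r k : ℕ) (c : K) (α : σ → K) (β : ℕ → K) : hat r k c α β ∈ Wt K (σ ⊕ Fin r) 1 := by
  have hC : ∀ (c : K) (i : σ ⊕ Fin r), (C c * X i : MvPolynomial (σ ⊕ Fin r) K) ∈ Wt K (σ ⊕ Fin r) 1 :=
    fun c i => Wt_mono le_rfl (Wt_mul (Wt_C c) (Wt_X i))
  refine Submodule.add_mem _ (Submodule.add_mem _ (Wt_mono (Nat.zero_le _) (Wt_C _))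
    (Submodule.sum_mem _ fun v _ => hC _ _)) (Submodule.sum_mem _ fun j _ => ?_)
  unfold yv
  split_ifs
  · exact hC _ _
  · rw [mul_zero]
    exact Submodule.zero_mem _

/-- the degree bound -/
theorem strassen [Infinite K] {τ ι : Type*} [Fintype τ] [DecidableEq τ] [Fintype ι]
    (y : ℕ → MvPolynomial σ K) (r : ℕ) (hy : IsProg y r) (G : τ → MvPolynomial σ K)
    (hG : ∀ i, LinComb y r (G i)) (hc : Fintype.card τ = Fintype.card σ) (p : ι → σ → K)
    (hp : Function.Injective p) (hf : ∀ k i, eval (p k) (G i) = 0)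
    (hJ : ∀ k, ∀ v : σ → K, (∀ i, ∑ j, eval (p k) (pderiv j (G i)) * v j = 0) → v = 0) :
    Fintype.card ι ≤ 2 ^ r := by
  classical
  choose cg αg βg hGe using hG
  have hy' : ∀ k : Fin r, ∃ (c : K) (α : σ → K) (β : ℕ → K) (c' : K) (α' : σ → K) (β' : ℕ → K),
      y k = (C c + ∑ v, C (α v) * X v + ∑ j ∈ range k, C (β j) * y j) *
        (C c' + ∑ v, C (α' v) * X v + ∑ j ∈ range k, C (β' j) * y j) := by
    intro k
    obtain ⟨f, g, ⟨c, α, β, rfl⟩, ⟨c', α', β', rfl⟩, e⟩ := hy k k.2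
    exact ⟨c, α, β, c', α', β', e⟩
  choose c α β c' α' β' hye using hy'
  set F : τ ⊕ Fin r → MvPolynomial (σ ⊕ Fin r) K := Sum.elim (fun i => hat r r (cg i) (αg i) (βg i))
    (fun k => X (Sum.inr k) - hat r k (c k) (α k) (β k) * hat r k (c' k) (α' k) (β' k)) with hF
  set d : τ ⊕ Fin r → ℕ := Sum.elim (fun _ => 1) (fun _ => 2) with hd
  have hb := bezA F d ?_ ?_ ?_ (fun k => ptc y r (p k)) ?_ ?_ ?_
  · refine hb.trans (le_of_eq ?_)
    rw [Fintype.prod_sum_type]
    simp [hd]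
  · rintro (i | k)
    · exact le_rfl
    · exact one_le_two
  · rintro (i | k)
    · exact hat_mem r r (cg i) (αg i) (βg i)
    · change X (Sum.inr k) - hat r k (c k) (α k) (β k) * hat r k (c' k) (α' k) (β' k) ∈ Wt K (σ ⊕ Fin r) 2
      have h1 : hat r k (c k) (α k) (β k) * hat r k (c' k) (α' k) (β' k) ∈ Wt K (σ ⊕ Fin r) (1 + 1) :=
        Wt_mul (hat_mem _ _ _ _ _) (hat_mem _ _ _ _ _)
      have h2 : (X (Sum.inr k) : MvPolynomial (σ ⊕ Fin r) K) ∈ Wt K (σ ⊕ Fin r) 2 :=
        Wt_mono one_le_two (Wt_X _)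
      exact Submodule.sub_mem _ h2 h1
  · rw [Fintype.card_sum, Fintype.card_sum, hc]
  · intro k l hkl
    apply hp
    funext v
    exact congrFun hkl (Sum.inl v)
  · rintro k (i | j)
    · change eval (ptc y r (p k)) (hat r r (cg i) (αg i) (βg i)) = 0
      rw [eval_hat y r r le_rfl, ← hGe]
      exact hf k i
    · change eval (ptc y r (p k)) (X (Sum.inr j) - hat r j (c j) (α j) (β j) * hat r j (c' j) (α' j) (β' j)) = 0
      rw [map_sub, map_mul, eval_X, eval_hat y r (j : ℕ) j.2.le (p k) (c j) (α j) (β j),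
        eval_hat y r (j : ℕ) j.2.le (p k) (c' j) (α' j) (β' j), ← map_mul, ← hye j]
      exact sub_self _
  · intro k
    refine jac_surj_of_inj _ _ (by rw [Fintype.card_sum, Fintype.card_sum, hc]) fun V hV => ?_
    set w : σ → K := fun v => V (Sum.inl v) with hw
    have hV' : ∀ i, dl (ptc y r (p k)) V (F i) = 0 := by
      intro i
      unfold dl
      rw [← jac_eq_ln]
      exact congrFun hV i
    have hη : ∀ j (h : j < r), V (Sum.inr ⟨j, h⟩) = dl (p k) w (y j) := by
      intro j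
      induction j using Nat.strong_induction_on with
      | _ j ih =>
        intro h
        have e : dl (ptc y r (p k)) V (X (Sum.inr ⟨j, h⟩) - hat r j (c ⟨j, h⟩) (α ⟨j, h⟩) (β ⟨j, h⟩) *
          hat r j (c' ⟨j, h⟩) (α' ⟨j, h⟩) (β' ⟨j, h⟩)) = 0 := hV' (Sum.inr ⟨j, h⟩)
        rw [dl_sub, dl_X, dl_mul, eval_hat y r j h.le (p k) (c ⟨j, h⟩) (α ⟨j, h⟩) (β ⟨j, h⟩),
          eval_hat y r j h.le (p k) (c' ⟨j, h⟩) (α' ⟨j, h⟩) (β' ⟨j, h⟩),
          dl_hat y r j h.le (p k) V w (fun v => rfl) (fun i hi hij => ih i hij hi) (c ⟨j, h⟩) (α ⟨j, h⟩) (β ⟨j, h⟩),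
          dl_hat y r j h.le (p k) V w (fun v => rfl) (fun i hi hij => ih i hij hi) (c' ⟨j, h⟩) (α' ⟨j, h⟩) (β' ⟨j, h⟩),
          ← dl_mul] at e
        have e2 : y j = _ := hye ⟨j, h⟩
        rw [← e2] at e
        exact sub_eq_zero.1 e
    have hw0 : w = 0 := by
      apply hJ k
      intro i
      have e : dl (ptc y r (p k)) V (hat r r (cg i) (αg i) (βg i)) = 0 := hV' (Sum.inl i)
      rw [dl_hat y r r le_rfl (p k) V w (fun v => rfl) (fun i hi _ => hη i hi), ← hGe] at e
      unfold dl at e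
      rwa [ln_deriv] at e
    funext o
    rcases o with v | ⟨j, h⟩
    · exact congrFun hw0 v
    · rw [hη j h, hw0, dl_zero_dir]
      rfl

end Circ
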